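import Pool.Agent.N936.TC.Stm

/-! PROJECT TC (helper936), MP_cdfe0d_gt: the sets `W` and `K` are compact (helper278). -/

set_option autoImplicit false

namespace Pool.Agent.N278.TC

open Set Topology Pool.Agent.N936.TC

theorem closed_M1 (i : Bool) : IsClosed {p : ℝ × ℝ | M1 i p.1 p.2} := by
  cases i
  · have h : {p : ℝ × ℝ | M1 false p.1 p.2} =
        {p : ℝ × ℝ | p.2 = 1/8} ∪ (({p : ℝ × ℝ | p.1 ≤ 1/4} ∩ {p : ℝ × ℝ | p.2 = 5/8}) ∪
          (({p : ℝ × ℝ | p.1 = 1/4} ∩ ({p : ℝ × ℝ | 1/8 ≤ p.2} ∩ {p : ℝ × ℝ | p.2 ≤ 5/8})) ∪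
          ({p : ℝ × ℝ | 3/8 ≤ p.1} ∩ ({p : ℝ × ℝ | p.1 ≤ 5/8} ∩
            ({p : ℝ × ℝ | 1/16 ≤ p.2} ∩ {p : ℝ × ℝ | p.2 ≤ 3/16}))))) := by
      ext p
      rfl
    rw [h]
    refine (isClosed_eq continuous_snd continuous_const).union
      (((isClosed_le continuous_fst continuous_const).inter
        (isClosed_eq continuous_snd continuous_const)).union
      (((isClosed_eq continuous_fst continuous_const).inter
        ((isClosed_le continuous_const continuous_snd).inter
          (isClosed_le continuous_snd continuous_const))).union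
      ((isClosed_le continuous_const continuous_fst).inter
        ((isClosed_le continuous_fst continuous_const).inter
          ((isClosed_le continuous_const continuous_snd).inter
            (isClosed_le continuous_snd continuous_const))))))
  · have h : {p : ℝ × ℝ | M1 true p.1 p.2} =
        {p : ℝ × ℝ | p.2 = 5/8} ∪ (({p : ℝ × ℝ | p.1 = 1/4} ∩
          ({p : ℝ × ℝ | 5/8 ≤ p.2} ∪ {p : ℝ × ℝ | p.2 ≤ 1/8})) ∪
          ({p : ℝ × ℝ | p.1 ≤ 1/4} ∩ {p : ℝ × ℝ | p.2 = 1/8})) := by
      ext p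
      rfl
    rw [h]
    refine (isClosed_eq continuous_snd continuous_const).union
      (((isClosed_eq continuous_fst continuous_const).inter
        ((isClosed_le continuous_const continuous_snd).union
          (isClosed_le continuous_snd continuous_const))).union
      ((isClosed_le continuous_fst continuous_const).inter
        (isClosed_eq continuous_snd continuous_const)))

theorem compact_of_closed {X : Type} [TopologicalSpace X] (Φ : Q × Bool × I → X)
    (hΦ : Continuous Φ) (u : ℝ → ℝ) (hu : Continuous u) :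
    IsCompact {z : X × X | ∃ (q : Q) (i : Bool) (s : I) (r : Q) (j : Bool) (t : I),
      M1 i (u s) (u t) ∧ z = (Φ (q, i, s), Φ (r, j, t))} := by
  have key : {z : X × X | ∃ (q : Q) (i : Bool) (s : I) (r : Q) (j : Bool) (t : I),
      M1 i (u s) (u t) ∧ z = (Φ (q, i, s), Φ (r, j, t))} =
      ⋃ i : Bool, (fun w : (Q × I) × (Q × Bool × I) =>
        ((Φ (w.1.1, i, w.1.2), Φ w.2) : X × X)) ''
        {w : (Q × I) × (Q × Bool × I) | M1 i (u (w.1.2 : ℝ)) (u (w.2.2.2 : ℝ))} := by
    ext z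
    simp only [mem_ofPred_eq, mem_iUnion, mem_image]
    constructor
    · rintro ⟨q, i, s, r, j, t, h, rfl⟩
      exact ⟨i, ((q, s), (r, j, t)), h, rfl⟩
    · rintro ⟨i, ⟨⟨q, s⟩, ⟨r, j, t⟩⟩, h, rfl⟩
      exact ⟨q, i, s, r, j, t, h, rfl⟩
  rw [key]
  refine isCompact_iUnion fun i => IsCompact.image ?_ ?_
  · refine IsClosed.isCompact ?_
    have hc : Continuous fun w : (Q × I) × (Q × Bool × I) =>
        ((u (w.1.2 : ℝ), u (w.2.2.2 : ℝ)) : ℝ × ℝ) := by fun_prop
    exact (closed_M1 i).preimage hc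
  · fun_prop

theorem t_cpt : Pool.Agent.N936.TC.S_CPT := by
  intro X _ Φ hΦ
  exact ⟨compact_of_closed Φ hΦ (fun x => x) continuous_id,
    compact_of_closed Φ hΦ (fun x => 1 - x) (by fun_prop)⟩

end Pool.Agent.N278.TC
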