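import Pool.Agent.N343.TC.Stm

/-!
Project TC: injectivity of `w H(w^k)` for `H` near `1` (TC/INJ, helper278).
-/

set_option autoImplicit false

open MeasureTheory Set Filter Topology Metric Complex

namespace Pool.Agent.N278.TC

open Pool.Agent.N343.TC

theorem rr_pow {k : ℕ} (hk : 1 ≤ k) : (rr k) ^ k = 3 / 2 := by
  have hk0 : (k : ℝ) ≠ 0 := by
    have : (0 : ℝ) < k := by exact_mod_cast hk
    exact this.ne'
  unfold rr
  rw [← Real.rpow_natCast, ← Real.rpow_mul (by norm_num), one_div, inv_mul_cancel₀ hk0,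
    Real.rpow_one]

theorem rr_gt {k : ℕ} (hk : 1 ≤ k) : 1 < rr k := by
  have hk0 : (0 : ℝ) < k := by exact_mod_cast hk
  unfold rr
  exact Real.one_lt_rpow (by norm_num) (by positivity)

theorem pow_lt {k : ℕ} (hk : 1 ≤ k) {w : ℂ} (hw : w ∈ ball (0 : ℂ) (rr k)) : ‖w ^ k‖ < 3 / 2 := by
  rw [mem_ball_zero_iff] at hw
  rw [norm_pow, ← rr_pow hk]
  exact pow_lt_pow_left₀ hw (norm_nonneg _) (by omega)

/-- bounds for `H` and its derivative -/
theorem est {lam C : ℝ} {k : ℕ} {H : ℂ → ℂ} (hk : 1 ≤ k) (hN : Near lam C k H) {x : ℂ}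
    (hx : ‖x‖ < 3 / 2) : DifferentiableAt ℂ H x ∧ ‖H x - 1‖ ≤ (2 * |lam| + |C|) / k ∧
      (k : ℝ) * ‖deriv H x‖ ≤ (|lam| + 4 * |C|) / k := by
  obtain ⟨hd, hb⟩ := hN
  have hkr : (1 : ℝ) ≤ k := by exact_mod_cast hk
  have hk0 : (0 : ℝ) < k := by linarith
  have hkc : (k : ℂ) ≠ 0 := by exact_mod_cast hk0.ne'
  have hk2 : ((k : ℂ) ^ 2) ≠ 0 := pow_ne_zero 2 hkc
  set E : ℂ → ℂ := fun x => (k : ℂ) ^ 2 * (H x - 1) - (lam : ℂ) * x with hE
  have hEb : ∀ y ∈ ball (0 : ℂ) 2, ‖E y‖ ≤ |C| / k := fun y hy =>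
    (hb y hy).trans (div_le_div_of_nonneg_right (le_abs_self C) hk0.le)
  have hxb : x ∈ ball (0 : ℂ) 2 := by
    rw [mem_ball_zero_iff]
    linarith
  have hHx : DifferentiableAt ℂ H x := hd.differentiableAt (isOpen_ball.mem_nhds hxb)
  have hEd : DifferentiableOn ℂ E (ball 0 2) := by
    apply DifferentiableOn.sub
    · exact (hd.sub_const 1).const_mul _
    · exact (differentiableOn_id).const_mul _
  have hsub : closedBall x (1 / 4) ⊆ ball (0 : ℂ) 2 := by
    intro y hy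
    rw [mem_closedBall, dist_eq_norm] at hy
    rw [mem_ball_zero_iff]
    have : ‖y‖ ≤ ‖y - x‖ + ‖x‖ := by
      have := norm_add_le (y - x) x
      rwa [sub_add_cancel] at this
    linarith
  have hE' : ‖deriv E x‖ ≤ |C| / k / (1 / 4) := by
    apply Complex.norm_deriv_le_of_forall_mem_sphere_norm_le (by norm_num)
    · exact (hEd.mono hsub).diffContOnCl_ball (subset_refl _)
    · intro z hz
      exact hEb z (hsub (sphere_subset_closedBall hz))
  have hEx := hEb x hxb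
  have hCk : |C| / k ≤ |C| := div_le_self (abs_nonneg _) hkr
  have e1 : H x - 1 = ((lam : ℂ) * x + E x) / (k : ℂ) ^ 2 := by
    rw [hE]
    field_simp
    ring
  have hEdx : DifferentiableAt ℂ E x := hEd.differentiableAt (isOpen_ball.mem_nhds hxb)
  have hH' : HasDerivAt H (((lam : ℂ) + deriv E x) / (k : ℂ) ^ 2) x := by
    have h1 : HasDerivAt (fun y => ((lam : ℂ) * y + E y) / (k : ℂ) ^ 2 + 1)
        (((lam : ℂ) * 1 + deriv E x) / (k : ℂ) ^ 2) x :=
      ((((hasDerivAt_id x).const_mul (lam : ℂ)).add hEdx.hasDerivAt).div_const _).add_const 1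
    rw [mul_one] at h1
    refine h1.congr_of_eventuallyEq (Eventually.of_forall fun y => ?_)
    show H y = ((lam : ℂ) * y + E y) / (k : ℂ) ^ 2 + 1
    rw [hE]
    field_simp
    ring
  have hkn : ‖(k : ℂ) ^ 2‖ = (k : ℝ) ^ 2 := by
    rw [norm_pow, Complex.norm_natCast]
  refine ⟨hHx, ?_, ?_⟩
  · rw [e1, norm_div, hkn, div_le_div_iff₀ (by positivity) hk0]
    have h1 : ‖(lam : ℂ) * x + E x‖ ≤ 2 * |lam| + |C| := by
      refine (norm_add_le _ _).trans ?_
      rw [norm_mul, Complex.norm_real, Real.norm_eq_abs]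
      have h2 : |lam| * ‖x‖ ≤ |lam| * 2 := mul_le_mul_of_nonneg_left (by linarith) (abs_nonneg _)
      linarith
    have h3 : (k : ℝ) ≤ (k : ℝ) ^ 2 := by nlinarith
    exact mul_le_mul h1 h3 hk0.le (by positivity)
  · rw [hH'.deriv, norm_div, hkn, le_div_iff₀ hk0]
    have h1 : ‖(lam : ℂ) + deriv E x‖ ≤ |lam| + 4 * |C| := by
      refine (norm_add_le _ _).trans ?_
      rw [Complex.norm_real, Real.norm_eq_abs]
      have h2 : |C| / k / (1 / 4) = 4 * (|C| / k) := by ring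
      rw [h2] at hE'
      linarith
    calc (k : ℝ) * (‖(lam : ℂ) + deriv E x‖ / (k : ℝ) ^ 2) * k
        = ‖(lam : ℂ) + deriv E x‖ := by field_simp
      _ ≤ _ := h1

theorem main : S_INJ := by
  intro lam C
  obtain ⟨K, hK⟩ := exists_nat_ge (7 * |lam| + 14 * |C| + 1)
  refine ⟨K, ?_⟩
  intro k hkK R H hR hN
  have hkr : 7 * |lam| + 14 * |C| + 1 ≤ (k : ℝ) := hK.trans (by exact_mod_cast hkK)
  have hl0 : 0 ≤ |lam| := abs_nonneg _
  have hC0 : 0 ≤ |C| := abs_nonneg _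
  have hk1 : (1 : ℝ) ≤ k := by linarith
  have hk : 1 ≤ k := by exact_mod_cast hk1
  have hk0 : (0 : ℝ) < k := by linarith
  have hderiv : ∀ w ∈ ball (0 : ℂ) (rr k), ∃ D : ℂ, HasDerivAt (mk R k H) D w ∧ ‖D - R‖ ≤ R / 2 := by
    intro w hw
    have hx := pow_lt hk hw
    obtain ⟨h1, h2, h3⟩ := est hk hN hx
    have hpow : HasDerivAt (fun w : ℂ => w ^ k) ((k : ℂ) * w ^ (k - 1)) w := hasDerivAt_pow k w
    have hcomp : HasDerivAt (fun w : ℂ => H (w ^ k)) (deriv H (w ^ k) * ((k : ℂ) * w ^ (k - 1))) w :=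
      HasDerivAt.comp w h1.hasDerivAt hpow
    have hlin : HasDerivAt (fun w : ℂ => (R : ℂ) * w) ((R : ℂ) * 1) w :=
      (hasDerivAt_id w).const_mul (R : ℂ)
    have hf := hlin.mul hcomp
    refine ⟨_, hf, ?_⟩
    have hwk : w * w ^ (k - 1) = w ^ k := by
      rw [← pow_succ', Nat.sub_add_cancel hk]
    have e1 : (R : ℂ) * 1 * H (w ^ k) + (R : ℂ) * w * (deriv H (w ^ k) * ((k : ℂ) * w ^ (k - 1))) - R =
        (R : ℂ) * ((H (w ^ k) - 1) + w ^ k * ((k : ℂ) * deriv H (w ^ k))) := by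
      rw [← hwk]
      ring
    rw [e1, norm_mul, Complex.norm_real, Real.norm_eq_abs, abs_of_pos hR]
    have h4 : ‖(H (w ^ k) - 1) + w ^ k * ((k : ℂ) * deriv H (w ^ k))‖ ≤ 1 / 2 := by
      refine (norm_add_le _ _).trans ?_
      rw [norm_mul, norm_mul, Complex.norm_natCast]
      have h5 : ‖w ^ k‖ * ((k : ℝ) * ‖deriv H (w ^ k)‖) ≤ 3 / 2 * ((|lam| + 4 * |C|) / k) :=
        mul_le_mul hx.le h3 (by positivity) (by norm_num)
      have h6 : (2 * |lam| + |C|) / k + 3 / 2 * ((|lam| + 4 * |C|) / k) ≤ 1 / 2 := by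
        have e2 : (2 * |lam| + |C|) / k + 3 / 2 * ((|lam| + 4 * |C|) / k) =
            (7 / 2 * |lam| + 7 * |C|) / k := by ring
        rw [e2, div_le_iff₀ hk0]
        linarith
      linarith
    calc R * ‖(H (w ^ k) - 1) + w ^ k * ((k : ℂ) * deriv H (w ^ k))‖ ≤ R * (1 / 2) :=
          mul_le_mul_of_nonneg_left h4 hR.le
      _ = R / 2 := by ring
  refine ⟨rr_gt hk, ?_, ?_, ?_⟩
  · intro w hw
    obtain ⟨D, hD, -⟩ := hderiv w hw
    exact hD.differentiableAt.differentiableWithinAt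
  · intro w hw w' hw' heq
    have hlip : ‖(mk R k H w' - (R : ℂ) * w') - (mk R k H w - (R : ℂ) * w)‖ ≤ R / 2 * ‖w' - w‖ := by
      have hg : ∀ z ∈ ball (0 : ℂ) (rr k), HasDerivWithinAt (fun z => mk R k H z - (R : ℂ) * z)
          (deriv (mk R k H) z - R) (ball (0 : ℂ) (rr k)) z := by
        intro z hz
        obtain ⟨D, hD, -⟩ := hderiv z hz
        rw [hD.deriv]
        have h1 : HasDerivAt (fun z : ℂ => (R : ℂ) * z) ((R : ℂ) * 1) z :=
          (hasDerivAt_id z).const_mul (R : ℂ)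
        rw [mul_one] at h1
        exact (hD.sub h1).hasDerivWithinAt
      refine Convex.norm_image_sub_le_of_norm_hasDerivWithin_le hg ?_ (convex_ball _ _) hw hw'
      intro z hz
      obtain ⟨D, hD, hDn⟩ := hderiv z hz
      rw [hD.deriv]
      exact hDn
    have heq' : mk R k H w = mk R k H w' := heq
    rw [← heq'] at hlip
    have e1 : mk R k H w - (R : ℂ) * w' - (mk R k H w - (R : ℂ) * w) = (R : ℂ) * (w - w') := by ring
    rw [e1, norm_mul, Complex.norm_real, Real.norm_eq_abs, abs_of_pos hR, norm_sub_rev w' w] at hlip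
    have h2 : ‖w - w'‖ = 0 := by
      have h3 := norm_nonneg (w - w')
      nlinarith
    exact sub_eq_zero.1 (norm_eq_zero.1 h2)
  · intro w hw h0
    obtain ⟨D, hD, hDn⟩ := hderiv w hw
    rw [hD.deriv] at h0
    rw [h0, zero_sub, norm_neg, Complex.norm_real, Real.norm_eq_abs, abs_of_pos hR] at hDn
    linarith

end Pool.Agent.N278.TC
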